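import Pool.Agent.N556.CQ.Stm
import Pool.Agent.Helper484.Crit.FG

/-!
# Project CQ (helper556), leaf CQ/FAN: area of a convex set with eight given points (helper252)
-/

set_option autoImplicit false

namespace Pool.Agent.N252.CQ

open MeasureTheory Set Pool.Agent.N556.CQ

/-- a closed half plane through `o` -/
def Hp (o : P) (α β : ℝ) : Set P := {z | 0 ≤ α * (z.1 - o.1) + β * (z.2 - o.2)}

theorem Hp_convex (o : P) (α β : ℝ) : Convex ℝ (Hp o α β) := by
  intro x hx y hy s t hs ht hst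
  have hx' : 0 ≤ α * (x.1 - o.1) + β * (x.2 - o.2) := hx
  have hy' : 0 ≤ α * (y.1 - o.1) + β * (y.2 - o.2) := hy
  show 0 ≤ α * ((s • x + t • y).1 - o.1) + β * ((s • x + t • y).2 - o.2)
  have e1 : (s • x + t • y).1 = s * x.1 + t * y.1 := rfl
  have e2 : (s • x + t • y).2 = s * x.2 + t * y.2 := rfl
  rw [e1, e2]
  have e3 : α * (s * x.1 + t * y.1 - o.1) + β * (s * x.2 + t * y.2 - o.2) =
      s * (α * (x.1 - o.1) + β * (x.2 - o.2)) + t * (α * (y.1 - o.1) + β * (y.2 - o.2)) := by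
    have ht' : t = 1 - s := by linarith
    rw [ht']
    ring
  rw [e3]
  positivity

/-- lines are null sets -/
theorem null_line (o : P) (α β : ℝ) (h : α ≠ 0 ∨ β ≠ 0) :
    volume {z : P | α * (z.1 - o.1) + β * (z.2 - o.2) = 0} = 0 := by
  have hm : MeasurableSet {z : P | α * (z.1 - o.1) + β * (z.2 - o.2) = 0} :=
    (isClosed_eq (by fun_prop) continuous_const).measurableSet
  rcases h with h | h
  · rw [Measure.volume_eq_prod, Measure.prod_apply_symm hm]
    have h0 : ∀ y : ℝ, volume ((fun x : ℝ => ((x, y) : P)) ⁻¹'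
        {z : P | α * (z.1 - o.1) + β * (z.2 - o.2) = 0}) = 0 := by
      intro y
      refine Set.Subsingleton.measure_zero ?_ _
      intro x hx x' hx'
      have a1 : α * (x - o.1) + β * (y - o.2) = 0 := hx
      have a2 : α * (x' - o.1) + β * (y - o.2) = 0 := hx'
      have a3 : α * (x - x') = 0 := by linarith
      rcases mul_eq_zero.1 a3 with a4 | a4
      · exact absurd a4 h
      · linarith
    exact (lintegral_congr h0).trans lintegral_zero
  · rw [Measure.volume_eq_prod, Measure.prod_apply hm]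
    have h0 : ∀ x : ℝ, volume (Prod.mk x ⁻¹' {z : P | α * (z.1 - o.1) + β * (z.2 - o.2) = 0}) = 0 := by
      intro x
      refine Set.Subsingleton.measure_zero ?_ _
      intro y hy y' hy'
      have a1 : α * (x - o.1) + β * (y - o.2) = 0 := hy
      have a2 : α * (x - o.1) + β * (y' - o.2) = 0 := hy'
      have a3 : β * (y - y') = 0 := by linarith
      rcases mul_eq_zero.1 a3 with a4 | a4
      · exact absurd a4 h
      · linarith
    exact (lintegral_congr h0).trans lintegral_zero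

/-- an open sector -/
def Sec (o : P) (e1 e2 α β : ℝ) : Set P :=
  {z | 0 < e1 * (z.1 - o.1) ∧ 0 < e2 * (z.2 - o.2) ∧ 0 < α * (z.1 - o.1) + β * (z.2 - o.2)}

/-- an open quadrant -/
def Qd (o : P) (e1 e2 : ℝ) : Set P := {z | 0 < e1 * (z.1 - o.1) ∧ 0 < e2 * (z.2 - o.2)}

theorem Sec_meas (o : P) (e1 e2 α β : ℝ) : MeasurableSet (Sec o e1 e2 α β) := by
  have h1 : IsOpen {z : P | 0 < e1 * (z.1 - o.1)} := isOpen_lt continuous_const (by fun_prop)
  have h2 : IsOpen {z : P | 0 < e2 * (z.2 - o.2)} := isOpen_lt continuous_const (by fun_prop)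
  have h3 : IsOpen {z : P | 0 < α * (z.1 - o.1) + β * (z.2 - o.2)} :=
    isOpen_lt continuous_const (by fun_prop)
  exact (h1.inter (h2.inter h3)).measurableSet

theorem Qd_meas (o : P) (e1 e2 : ℝ) : MeasurableSet (Qd o e1 e2) := by
  have h1 : IsOpen {z : P | 0 < e1 * (z.1 - o.1)} := isOpen_lt continuous_const (by fun_prop)
  have h2 : IsOpen {z : P | 0 < e2 * (z.2 - o.2)} := isOpen_lt continuous_const (by fun_prop)
  exact (h1.inter h2).measurableSet

/-- a triangle with the vertex `o` in a sector -/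
theorem tri (L : Set P) (hL : Convex ℝ L) (o x y : P) (e1 e2 α β : ℝ) (he1 : e1 ≠ 0) (he2 : e2 ≠ 0)
    (hαβ : α ≠ 0 ∨ β ≠ 0) (ho : o ∈ L) (hx : x ∈ L) (hy : y ∈ L)
    (hx1 : 0 ≤ e1 * (x.1 - o.1)) (hx2 : 0 ≤ e2 * (x.2 - o.2))
    (hx3 : 0 ≤ α * (x.1 - o.1) + β * (x.2 - o.2))
    (hy1 : 0 ≤ e1 * (y.1 - o.1)) (hy2 : 0 ≤ e2 * (y.2 - o.2))
    (hy3 : 0 ≤ α * (y.1 - o.1) + β * (y.2 - o.2)) :
    ENNReal.ofReal (|(x.1 - o.1) * (y.2 - o.2) - (x.2 - o.2) * (y.1 - o.1)| / 2) ≤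
      (volume.restrict L) (Sec o e1 e2 α β) := by
  have hT : convexHull ℝ {o, x, y} ⊆ L := by
    refine convexHull_min ?_ hL
    intro z hz
    rcases hz with rfl | rfl | rfl
    exacts [ho, hx, hy]
  have hC : convexHull ℝ {o, x, y} ⊆ Hp o e1 0 ∩ (Hp o 0 e2 ∩ Hp o α β) := by
    refine convexHull_min ?_ ((Hp_convex o e1 0).inter ((Hp_convex o 0 e2).inter (Hp_convex o α β)))
    intro z hz
    rcases hz with rfl | rfl | rfl
    · refine ⟨?_, ?_, ?_⟩
      · show 0 ≤ e1 * (z.1 - z.1) + 0 * (z.2 - z.2)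
        simp
      · show 0 ≤ 0 * (z.1 - z.1) + e2 * (z.2 - z.2)
        simp
      · show 0 ≤ α * (z.1 - z.1) + β * (z.2 - z.2)
        simp
    · refine ⟨?_, ?_, hx3⟩
      · show 0 ≤ e1 * (z.1 - o.1) + 0 * (z.2 - o.2)
        linarith
      · show 0 ≤ 0 * (z.1 - o.1) + e2 * (z.2 - o.2)
        linarith
    · refine ⟨?_, ?_, hy3⟩
      · show 0 ≤ e1 * (z.1 - o.1) + 0 * (z.2 - o.2)
        linarith
      · show 0 ≤ 0 * (z.1 - o.1) + e2 * (z.2 - o.2)
        linarith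
  have hdiff : volume (convexHull ℝ {o, x, y} \ Sec o e1 e2 α β) = 0 := by
    have hN : volume ({z : P | e1 * (z.1 - o.1) + 0 * (z.2 - o.2) = 0} ∪
        ({z : P | 0 * (z.1 - o.1) + e2 * (z.2 - o.2) = 0} ∪
          {z : P | α * (z.1 - o.1) + β * (z.2 - o.2) = 0})) = 0 := by
      rw [measure_union_null_iff, measure_union_null_iff]
      exact ⟨null_line o e1 0 (Or.inl he1), null_line o 0 e2 (Or.inr he2), null_line o α β hαβ⟩
    refine measure_mono_null ?_ hN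
    intro z hz
    obtain ⟨a1, a2, a3⟩ := hC hz.1
    have a1' : 0 ≤ e1 * (z.1 - o.1) + 0 * (z.2 - o.2) := a1
    have a2' : 0 ≤ 0 * (z.1 - o.1) + e2 * (z.2 - o.2) := a2
    have a3' : 0 ≤ α * (z.1 - o.1) + β * (z.2 - o.2) := a3
    by_contra hcon
    rw [Set.mem_union, Set.mem_union] at hcon
    push Not at hcon
    obtain ⟨b1, b2, b3⟩ := hcon
    have b1' : e1 * (z.1 - o.1) + 0 * (z.2 - o.2) ≠ 0 := b1
    have b2' : 0 * (z.1 - o.1) + e2 * (z.2 - o.2) ≠ 0 := b2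
    have b3' : α * (z.1 - o.1) + β * (z.2 - o.2) ≠ 0 := b3
    refine hz.2 ⟨?_, ?_, lt_of_le_of_ne a3' (Ne.symm b3')⟩
    · have h := lt_of_le_of_ne a1' (Ne.symm b1')
      linarith
    · have h := lt_of_le_of_ne a2' (Ne.symm b2')
      linarith
  have harea := Pool.Agent.Helper484.Crit.FG.volume_triangle_ge o x y
  have e3 : Pool.Agent.Helper484.Crit.cr (x - o) (y - o) =
      (x.1 - o.1) * (y.2 - o.2) - (x.2 - o.2) * (y.1 - o.1) := by
    unfold Pool.Agent.Helper484.Crit.cr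
    simp only [Prod.fst_sub, Prod.snd_sub]
  rw [e3] at harea
  refine harea.trans ?_
  calc volume (convexHull ℝ {o, x, y}) ≤ volume (convexHull ℝ {o, x, y} ∩ Sec o e1 e2 α β) +
        volume (convexHull ℝ {o, x, y} \ Sec o e1 e2 α β) := measure_le_inter_add_sdiff _ _ _
    _ = volume (convexHull ℝ {o, x, y} ∩ Sec o e1 e2 α β) := by rw [hdiff, add_zero]
    _ ≤ volume (Sec o e1 e2 α β ∩ L) := measure_mono fun z hz => ⟨hz.2, hT hz.1⟩
    _ = (volume.restrict L) (Sec o e1 e2 α β) := (Measure.restrict_apply (Sec_meas o e1 e2 α β)).symm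

/-- one quadrant -/
theorem quadrant (L : Set P) (hL : Convex ℝ L) (o p q v : P) (e1 e2 : ℝ) (h1 : e1 ^ 2 = 1)
    (h2 : e2 ^ 2 = 1) (ho : o ∈ L) (hp : p ∈ L) (hq : q ∈ L) (hv : v ∈ L)
    (hp2 : p.2 = o.2) (hp1 : 0 ≤ e1 * (p.1 - o.1)) (hq1 : q.1 = o.1) (hq2 : 0 ≤ e2 * (q.2 - o.2))
    (hv1 : 0 ≤ e1 * (v.1 - o.1)) (hv2 : 0 ≤ e2 * (v.2 - o.2)) :
    ENNReal.ofReal ((e1 * (p.1 - o.1)) * (e2 * (v.2 - o.2)) / 2 +
      (e2 * (q.2 - o.2)) * (e1 * (v.1 - o.1)) / 2) ≤ (volume.restrict L) (Qd o e1 e2) := by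
  have he1 : e1 ≠ 0 := by
    rintro rfl
    norm_num at h1
  have he2 : e2 ≠ 0 := by
    rintro rfl
    norm_num at h2
  by_cases hvo : v.1 - o.1 = 0 ∧ v.2 - o.2 = 0
  · rw [hvo.1, hvo.2]
    simp
  · have hne : e1 * e2 * (v.2 - o.2) ≠ 0 ∨ e1 * e2 * (v.1 - o.1) ≠ 0 := by
      by_cases h : v.2 - o.2 = 0
      · right
        exact mul_ne_zero (mul_ne_zero he1 he2) fun h' => hvo ⟨h', h⟩
      · left
        exact mul_ne_zero (mul_ne_zero he1 he2) h
    have hA : ENNReal.ofReal ((e1 * (p.1 - o.1)) * (e2 * (v.2 - o.2)) / 2) ≤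
        (volume.restrict L) (Sec o e1 e2 (e1 * e2 * (v.2 - o.2)) (-(e1 * e2 * (v.1 - o.1)))) := by
      have h := tri L hL o p v e1 e2 (e1 * e2 * (v.2 - o.2)) (-(e1 * e2 * (v.1 - o.1))) he1 he2
        (hne.imp id fun h => neg_ne_zero.2 h) ho hp hv hp1 (by rw [hp2, sub_self, mul_zero])
        (by rw [hp2, sub_self, mul_zero, add_zero]; nlinarith [mul_nonneg hp1 hv2]) hv1 hv2
        (le_of_eq (by ring))
      refine le_trans (le_of_eq ?_) h
      congr 2
      rw [hp2, sub_self, zero_mul, sub_zero]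
      have e : (e1 * (p.1 - o.1)) * (e2 * (v.2 - o.2)) = (e1 * e2) * ((p.1 - o.1) * (v.2 - o.2)) := by ring
      have e4 : |e1 * e2| = 1 := by
        rw [← sq_eq_sq₀ (abs_nonneg _) zero_le_one, sq_abs, mul_pow, h1, h2]
        norm_num
      calc (e1 * (p.1 - o.1)) * (e2 * (v.2 - o.2)) = |(e1 * (p.1 - o.1)) * (e2 * (v.2 - o.2))| :=
            (abs_of_nonneg (mul_nonneg hp1 hv2)).symm
        _ = |(p.1 - o.1) * (v.2 - o.2)| := by rw [e, abs_mul, e4, one_mul]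
    have hB : ENNReal.ofReal ((e2 * (q.2 - o.2)) * (e1 * (v.1 - o.1)) / 2) ≤
        (volume.restrict L) (Sec o e1 e2 (-(e1 * e2 * (v.2 - o.2))) (e1 * e2 * (v.1 - o.1))) := by
      have h := tri L hL o v q e1 e2 (-(e1 * e2 * (v.2 - o.2))) (e1 * e2 * (v.1 - o.1)) he1 he2
        (hne.imp (fun h => neg_ne_zero.2 h) id) ho hv hq hv1 hv2 (le_of_eq (by ring))
        (by rw [hq1, sub_self, mul_zero]) hq2
        (by rw [hq1, sub_self, mul_zero, zero_add]; nlinarith [mul_nonneg hv1 hq2])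
      refine le_trans (le_of_eq ?_) h
      congr 2
      rw [hq1, sub_self, mul_zero, sub_zero]
      have e : (e2 * (q.2 - o.2)) * (e1 * (v.1 - o.1)) = (e1 * e2) * ((v.1 - o.1) * (q.2 - o.2)) := by ring
      have e4 : |e1 * e2| = 1 := by
        rw [← sq_eq_sq₀ (abs_nonneg _) zero_le_one, sq_abs, mul_pow, h1, h2]
        norm_num
      calc (e2 * (q.2 - o.2)) * (e1 * (v.1 - o.1)) = |(e2 * (q.2 - o.2)) * (e1 * (v.1 - o.1))| :=
            (abs_of_nonneg (mul_nonneg hq2 hv1)).symm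
        _ = |(v.1 - o.1) * (q.2 - o.2)| := by rw [e, abs_mul, e4, one_mul]
    have hd : Disjoint (Sec o e1 e2 (e1 * e2 * (v.2 - o.2)) (-(e1 * e2 * (v.1 - o.1))))
        (Sec o e1 e2 (-(e1 * e2 * (v.2 - o.2))) (e1 * e2 * (v.1 - o.1))) := by
      refine Set.disjoint_left.2 fun z hz hz' => ?_
      have a := hz.2.2
      have b := hz'.2.2
      linarith
    calc ENNReal.ofReal ((e1 * (p.1 - o.1)) * (e2 * (v.2 - o.2)) / 2 +
          (e2 * (q.2 - o.2)) * (e1 * (v.1 - o.1)) / 2) ≤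
        ENNReal.ofReal ((e1 * (p.1 - o.1)) * (e2 * (v.2 - o.2)) / 2) +
          ENNReal.ofReal ((e2 * (q.2 - o.2)) * (e1 * (v.1 - o.1)) / 2) := ENNReal.ofReal_add_le
      _ ≤ _ := add_le_add hA hB
      _ = (volume.restrict L) (Sec o e1 e2 (e1 * e2 * (v.2 - o.2)) (-(e1 * e2 * (v.1 - o.1))) ∪
          Sec o e1 e2 (-(e1 * e2 * (v.2 - o.2))) (e1 * e2 * (v.1 - o.1))) :=
          (measure_union hd (Sec_meas _ _ _ _ _)).symm
      _ ≤ (volume.restrict L) (Qd o e1 e2) := by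
          refine measure_mono (Set.union_subset ?_ ?_)
          · exact fun z hz => ⟨hz.1, hz.2.1⟩
          · exact fun z hz => ⟨hz.1, hz.2.1⟩

theorem fan : S_FAN := by
  intro L a b v₁ v₂ v₃ v₄ hL ha hb h1 h2 h3 h4 hv₁ hv₂ hv₃ hv₄ g1 g2 g3 g4 g5 g6 g7 g8
  obtain ⟨ha1, ha2⟩ := abs_le.1 ha
  obtain ⟨hb1, hb2⟩ := abs_le.1 hb
  have ho : ((b, a) : P) ∈ L := by
    have h := hL h1 h2 (a := (1 + b) / 2) (b := (1 - b) / 2) (by linarith) (by linarith) (by ring)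
    have e : ((b, a) : P) = ((1 + b) / 2) • ((1, a) : P) + ((1 - b) / 2) • ((-1, a) : P) := by
      ext
      · show b = (1 + b) / 2 * 1 + (1 - b) / 2 * -1
        ring
      · show a = (1 + b) / 2 * a + (1 - b) / 2 * a
        ring
    rw [e]
    exact h
  have q1 := quadrant L hL (b, a) (1, a) (b, 1) v₁ 1 1 (by norm_num) (by norm_num) ho h1 h3 hv₁ rfl
    (by simpa using hb2) rfl (by simpa using ha2) (by simpa using g1) (by simpa using g2)
  have q2 := quadrant L hL (b, a) (-1, a) (b, 1) v₂ (-1) 1 (by norm_num) (by norm_num) ho h2 h3 hv₂ rfl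
    (show (0 : ℝ) ≤ -1 * (-1 - b) by linarith) rfl (show (0 : ℝ) ≤ 1 * (1 - a) by linarith)
    (show (0 : ℝ) ≤ -1 * (v₂.1 - b) by linarith) (show (0 : ℝ) ≤ 1 * (v₂.2 - a) by linarith)
  have q3 := quadrant L hL (b, a) (-1, a) (b, -1) v₃ (-1) (-1) (by norm_num) (by norm_num) ho h2 h4 hv₃ rfl
    (show (0 : ℝ) ≤ -1 * (-1 - b) by linarith) rfl (show (0 : ℝ) ≤ -1 * (-1 - a) by linarith)
    (show (0 : ℝ) ≤ -1 * (v₃.1 - b) by linarith) (show (0 : ℝ) ≤ -1 * (v₃.2 - a) by linarith)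
  have q4 := quadrant L hL (b, a) (1, a) (b, -1) v₄ 1 (-1) (by norm_num) (by norm_num) ho h1 h4 hv₄ rfl
    (show (0 : ℝ) ≤ 1 * (1 - b) by linarith) rfl (show (0 : ℝ) ≤ -1 * (-1 - a) by linarith)
    (show (0 : ℝ) ≤ 1 * (v₄.1 - b) by linarith) (show (0 : ℝ) ≤ -1 * (v₄.2 - a) by linarith)
  have d12 : Disjoint (Qd (b, a) 1 1) (Qd (b, a) (-1) 1) := by
    refine Set.disjoint_left.2 fun z hz hz' => ?_
    have x1 := hz.1
    have x2 := hz'.1
    linarith
  have d34 : Disjoint (Qd (b, a) (-1) (-1)) (Qd (b, a) 1 (-1)) := by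
    refine Set.disjoint_left.2 fun z hz hz' => ?_
    have x1 := hz.1
    have x2 := hz'.1
    linarith
  have d : Disjoint (Qd (b, a) 1 1 ∪ Qd (b, a) (-1) 1) (Qd (b, a) (-1) (-1) ∪ Qd (b, a) 1 (-1)) := by
    refine Set.disjoint_left.2 fun z hz hz' => ?_
    have x1 : 0 < (1 : ℝ) * (z.2 - a) := by
      rcases hz with hz | hz
      · exact hz.2
      · exact hz.2
    have x2 : 0 < (-1 : ℝ) * (z.2 - a) := by
      rcases hz' with hz' | hz'
      · exact hz'.2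
      · exact hz'.2
    linarith
  have hsum : (volume.restrict L) (Qd (b, a) 1 1) + (volume.restrict L) (Qd (b, a) (-1) 1) +
      ((volume.restrict L) (Qd (b, a) (-1) (-1)) + (volume.restrict L) (Qd (b, a) 1 (-1))) ≤ volume L := by
    rw [← measure_union d12 (Qd_meas _ _ _), ← measure_union d34 (Qd_meas _ _ _),
      ← measure_union d ((Qd_meas _ _ _).union (Qd_meas _ _ _))]
    refine (measure_mono (Set.subset_univ _)).trans ?_
    rw [Measure.restrict_apply_univ]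
  refine le_trans ?_ hsum
  refine le_trans ?_ (add_le_add (add_le_add q1 q2) (add_le_add q3 q4))
  refine le_trans (le_of_eq ?_) (ENNReal.ofReal_add_le.trans (add_le_add ENNReal.ofReal_add_le
    ENNReal.ofReal_add_le))
  congr 1
  simp only []
  ring

end Pool.Agent.N252.CQ
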